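import Pool.Agent.H77.BC.Targets

/-! Board bcp, row GAL (helper12). -/

set_option autoImplicit false

open Set Module

namespace Pool.Agent.H12.BCP

open Pool.Agent.H77.BC

/-- the case of Artin and Schreier -/
lemma gal_char {K : Type} [Field K] (σ : K ≃+* K) (L : Subfield K) (q : ℕ) [Fact q.Prime]
    [CharP K q] (hσ : ∀ x, (⇑σ)^[q] x = x) (hne : ∃ x, σ x ≠ x) (hfix : ∀ x, σ x = x ↔ x ∈ L)
    (hAS : ∀ x ∈ L, ∃ y ∈ L, y ^ q - y = x) : False := by
  have hch : CharP (AddMonoid.End K) q := by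
    refine ⟨fun n => ?_⟩
    rw [← CharP.cast_eq_zero_iff K q n]
    constructor
    · intro h
      have h1 := DFunLike.congr_fun h (1 : K)
      rw [AddMonoid.End.natCast_apply, nsmul_eq_mul, mul_one] at h1
      exact h1
    · intro h
      ext x
      rw [AddMonoid.End.natCast_apply, nsmul_eq_mul, h, zero_mul]
      rfl
  let S : AddMonoid.End K := σ.toAddEquiv.toAddMonoidHom
  have hS : ∀ x, S x = σ x := fun x => rfl
  have hSn : ∀ (n : ℕ) (x : K), (S ^ n) x = (⇑σ)^[n] x := by
    intro n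
    induction n with
    | zero => intro x; rfl
    | succ n ih =>
      intro x
      rw [pow_succ, Function.iterate_succ_apply, ← ih]
      rfl
  let N : AddMonoid.End K := S - 1
  have hN : ∀ x, N x = σ x - x := fun x => rfl
  have hNq : N ^ q = 0 := by
    have h1 : N ^ q = S ^ q - 1 ^ q := sub_pow_char_of_commute q (Commute.one_right S)
    rw [h1, one_pow]
    ext x
    have h2 : (S ^ q - 1 : AddMonoid.End K) x = (S ^ q) x - x := rfl
    rw [h2, hSn, hσ]
    exact sub_self x
  have hex : ∃ m, N ^ m = 0 := ⟨q, hNq⟩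
  classical
  obtain ⟨m, hm, hmin⟩ : ∃ m, N ^ m = 0 ∧ ∀ j < m, N ^ j ≠ 0 :=
    ⟨Nat.find hex, Nat.find_spec hex, fun j hj => Nat.find_min hex hj⟩
  have hm2 : 2 ≤ m := by
    by_contra hlt
    have h0 : m = 0 ∨ m = 1 := by omega
    obtain ⟨x, hx⟩ := hne
    rcases h0 with rfl | rfl
    · rw [pow_zero] at hm
      have h1 := DFunLike.congr_fun hm (1 : K)
      exact one_ne_zero h1
    · rw [pow_one] at hm
      have h1 := DFunLike.congr_fun hm x
      rw [hN] at h1
      exact hx (sub_eq_zero.1 h1)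
  obtain ⟨j, rfl⟩ : ∃ j, m = j + 2 := ⟨m - 2, by omega⟩
  obtain ⟨x, hx⟩ : ∃ x, (N ^ (j + 1)) x ≠ 0 := by
    by_contra hcon
    push Not at hcon
    exact hmin (j + 1) (by omega) (by ext x; exact hcon x)
  set y := (N ^ j) x with hy
  have hz : N y ≠ 0 := by
    intro h
    apply hx
    rw [pow_succ']
    exact h
  have hzz : N (N y) = 0 := by
    have h1 := DFunLike.congr_fun hm x
    rw [pow_succ', pow_succ'] at h1
    exact h1
  rw [hN] at hzz
  have hσy : σ y = y + N y := by rw [hN]; ring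
  have hσz : σ (N y) = N y := sub_eq_zero.1 hzz
  set a := y / N y with ha
  have hσa : σ a = a + 1 := by
    rw [ha, map_div₀, hσz, hσy, add_div, div_self hz]
  have haL : a ^ q - a ∈ L := by
    rw [← hfix, map_sub, map_pow, hσa, add_pow_char, one_pow]
    ring
  obtain ⟨b, hb, hab⟩ := hAS _ haL
  have hc : (a - b) ^ q = a - b := by
    rw [sub_pow_char]
    linear_combination -hab
  have hcb : a - b ∈ (⊥ : Subfield K) := (Subfield.mem_bot_iff_pow_eq_self K q).2 hc
  have hcL : a - b ∈ L := (bot_le : (⊥ : Subfield K) ≤ L) hcb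
  have h2 := (hfix _).2 hcL
  rw [map_sub, hσa, (hfix b).2 hb] at h2
  have h3 : (1 : K) = 0 := by linear_combination h2
  exact one_ne_zero h3

/-- roots of unity of order `q` are fixed by automorphisms of order `q` -/
lemma gal_zeta {K : Type} [Field K] (σ : K ≃+* K) (q : ℕ) [hq : Fact q.Prime]
    (hσ : ∀ x, (⇑σ)^[q] x = x) (z : K) (hz : IsPrimitiveRoot z q) : σ z = z := by
  have hq0 : NeZero q := ⟨hq.out.ne_zero⟩
  obtain ⟨j, -, hj⟩ := hz.eq_pow_of_pow_eq_one (ξ := σ z) (by rw [← map_pow, hz.pow_eq_one, map_one])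
  have hn : ∀ n : ℕ, (⇑σ)^[n] z = z ^ (j ^ n) := by
    intro n
    induction n with
    | zero => simp
    | succ n ih =>
      rw [Function.iterate_succ_apply', ih, map_pow, ← hj, ← pow_mul, pow_succ, mul_comm]
  have h1 := hn q
  rw [hσ] at h1
  have hz0 : z ≠ 0 := hz.ne_zero hq.out.ne_zero
  have h2 : z ^ ((j ^ q : ℤ) - 1) = 1 := by
    rw [zpow_sub₀ hz0, zpow_one]
    have h3 : z ^ (j ^ q : ℤ) = z := by
      rw [show ((j : ℤ) ^ q) = ((j ^ q : ℕ) : ℤ) by push_cast; rfl, zpow_natCast]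
      exact h1.symm
    rw [h3, div_self hz0]
  rw [hz.zpow_eq_one_iff_dvd] at h2
  have h4 : (q : ℤ) ∣ (j : ℤ) - 1 := by
    rw [← ZMod.intCast_zmod_eq_zero_iff_dvd] at h2 ⊢
    push_cast at h2 ⊢
    rw [ZMod.pow_card] at h2
    exact h2
  rw [← hz.zpow_eq_one_iff_dvd, zpow_sub₀ hz0, zpow_one, zpow_natCast, hj] at h4
  exact (div_eq_one_iff_eq hz0).1 h4

theorem pf_GAL : GAL := by
  intro K _ _ E hfd hroot
  have hperf : PerfectField E := by
    obtain ⟨p, hp⟩ := CharP.exists K
    rcases CharP.char_is_prime_or_zero K p with hp1 | rfl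
    · have : Fact p.Prime := ⟨hp1⟩
      have hEp : CharP E p := by infer_instance
      have : ExpChar E p := ExpChar.prime hp1
      have hPR : PerfectRing E p := PerfectRing.ofSurjective E p (fun x => by
        obtain ⟨y, hy, hyx⟩ := (hroot E le_rfl).1 p hp1.pos x x.2
        refine ⟨⟨y, hy⟩, ?_⟩
        rw [frobenius_def]
        exact Subtype.ext hyx)
      exact PerfectRing.toPerfectField E p
    · have : CharZero K := CharP.charP_to_charZero K
      infer_instance
  have hnorm : Normal E K := by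
    rw [normal_iff]
    exact fun x => ⟨Algebra.IsIntegral.isIntegral x, IsAlgClosed.splits _⟩
  have hgal : IsGalois E K := ⟨⟩
  by_contra hne
  have hcard : Nat.card (K ≃ₐ[E] K) ≠ 1 := by
    rw [IsGalois.card_aut_eq_finrank]
    intro h
    apply hne
    have h1 := (Subalgebra.bot_eq_top_iff_finrank_eq_one (F := E) (E := K)).2 h
    rw [eq_top_iff]
    intro x _
    have h2 : x ∈ (⊥ : Subalgebra E K) := by
      rw [h1]
      trivial
    obtain ⟨y, rfl⟩ := Algebra.mem_bot.1 h2
    exact y.2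
  obtain ⟨q, hq, hqd⟩ := Nat.exists_prime_and_dvd hcard
  have hqF : Fact q.Prime := ⟨hq⟩
  obtain ⟨σ, hσ⟩ := exists_prime_orderOf_dvd_card' q hqd
  let L : IntermediateField E K := IntermediateField.fixedField (Subgroup.zpowers σ)
  have hfix : ∀ x, σ x = x ↔ x ∈ L := by
    intro x
    rw [IntermediateField.mem_fixedField_iff]
    constructor
    · rintro hx _ ⟨n, rfl⟩
      have h1 : σ ∈ MulAction.stabilizer (K ≃ₐ[E] K) x := hx
      exact (MulAction.stabilizer (K ≃ₐ[E] K) x).zpow_mem h1 n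
    · intro h
      exact h σ (Subgroup.mem_zpowers σ)
  have hσq : ∀ x, (⇑(σ.toRingEquiv : K ≃+* K))^[q] x = x := by
    intro x
    have h1 : σ ^ q = 1 := by rw [← hσ]; exact pow_orderOf_eq_one σ
    have h2 : ∀ (n : ℕ) (x : K), (σ ^ n) x = (⇑(σ.toRingEquiv : K ≃+* K))^[n] x := by
      intro n
      induction n with
      | zero => intro x; rfl
      | succ n ih =>
        intro x
        rw [pow_succ, Function.iterate_succ_apply, ← ih]
        rfl
    rw [← h2, h1]
    rfl
  have hLE : E ≤ L.toSubfield := fun x hx => L.algebraMap_mem ⟨x, hx⟩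
  obtain ⟨hr1, hr2⟩ := hroot L.toSubfield hLE
  have hσ1 : ∃ x, (σ.toRingEquiv : K ≃+* K) x ≠ x := by
    by_contra hcon
    push Not at hcon
    have h1 : σ = 1 := AlgEquiv.ext hcon
    rw [h1, orderOf_one] at hσ
    exact hq.one_lt.ne hσ
  by_cases hch : (q : K) = 0
  · have hcp : CharP K q := by
      obtain ⟨p, hp⟩ := CharP.exists K
      have h1 := (CharP.cast_eq_zero_iff K p q).1 hch
      rcases (Nat.dvd_prime hq).1 h1 with h2 | h2
      · exact absurd h2 (CharP.char_ne_one K p)
      · rwa [h2] at hp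
    exact gal_char (σ.toRingEquiv : K ≃+* K) L.toSubfield q hσq hσ1 hfix (hr2 q hq hcp)
  · have hnz : NeZero (q : K) := ⟨hch⟩
    have hq0 : NeZero q := ⟨hq.ne_zero⟩
    obtain ⟨z, hz⟩ := HasEnoughRootsOfUnity.exists_primitiveRoot K q
    have hzL : z ∈ L := (hfix z).1 (gal_zeta (σ.toRingEquiv : K ≃+* K) q hσq z hz)
    have hLfin : finrank L K = q := by
      rw [IntermediateField.finrank_fixedField_eq_card, Nat.card_zpowers, hσ]
    have hzL' : IsPrimitiveRoot (⟨z, hzL⟩ : L) q := by
      refine IsPrimitiveRoot.of_map_of_injective (f := algebraMap L K) hz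
        (FaithfulSMul.algebraMap_injective L K)
    have hprim : (primitiveRoots (finrank L K) L).Nonempty := by
      rw [hLfin]
      exact ⟨⟨z, hzL⟩, (mem_primitiveRoots hq.pos).2 hzL'⟩
    have hcyc : IsCyclic (K ≃ₐ[L] K) := by
      refine isCyclic_of_prime_card (p := q) ?_
      rw [IsGalois.card_aut_eq_finrank, hLfin]
    obtain ⟨α, ⟨β, hβ⟩, hα⟩ := exists_root_adjoin_eq_top_of_isCyclic L K hprim
    rw [hLfin] at hβ
    have hβ' : (β : K) = α ^ q := hβ
    obtain ⟨b, hb, hbq⟩ := hr1 q hq.pos β β.2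
    have hαL : α ∈ L := by
      by_cases hα0 : α = 0
      · rw [hα0]
        exact L.zero_mem
      have hb0 : b ≠ 0 := by
        rintro rfl
        rw [zero_pow hq.ne_zero] at hbq
        have h1 : α ^ q = 0 := by rw [← hβ', ← hbq]
        exact hα0 (pow_eq_zero_iff hq.ne_zero |>.1 h1)
      have h1 : (α / b) ^ q = 1 := by
        rw [div_pow, hbq, ← hβ', div_self]
        rw [hβ']
        exact pow_ne_zero _ hα0
      obtain ⟨i, -, hi⟩ := hz.eq_pow_of_pow_eq_one h1
      have h2 : α = z ^ i * b := by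
        rw [hi, div_mul_cancel₀ _ hb0]
      rw [h2]
      exact L.mul_mem (pow_mem hzL i) hb
    have htop : (⊥ : IntermediateField L K) = ⊤ := by
      rw [← hα, eq_comm, IntermediateField.adjoin_simple_eq_bot_iff]
      exact IntermediateField.mem_bot.2 ⟨⟨α, hαL⟩, rfl⟩
    have h1 : finrank L K = 1 := IntermediateField.bot_eq_top_iff_finrank_eq_one.1 htop
    rw [hLfin] at h1
    exact hq.one_lt.ne' h1

end Pool.Agent.H12.BCP
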