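import Pool.Agent.H77.BC.Targets

/-! Board bcp, row TYA (helper12). -/

set_option autoImplicit false

open Set Matrix

namespace Pool.Agent.H12.BCP

open Pool.Agent.H77.BC

section alg

variable {K : Type} [Field K] {k : ℕ} {H : Subgroup (GL (Fin (k + 1)) K)}

lemma tya_uniq (hA : AA H = ⊥) {a : Kˣ} {φ ψ : Fin k → K} (h1 : bl a φ 1 ∈ H)
    (h2 : bl a ψ 1 ∈ H) : φ = ψ := by
  have h3 := H.mul_mem (H.inv_mem h1) h2
  rw [bl_inv, bl_mul, inv_mul_cancel, inv_one, one_mul] at h3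
  have h4 := mem_AA.2 h3
  rw [hA, AddSubgroup.mem_bot, Units.val_one, vecMul_one, vecMul_one, ← sub_eq_add_neg,
    ← smul_sub, smul_eq_zero] at h4
  rcases h4 with h4 | h4
  · exact absurd h4 (a⁻¹).ne_zero
  · exact (sub_eq_zero.1 h4).symm

lemma vecMul_cons (a : K) (χ φ : Fin k → K) (B : Matrix (Fin k) (Fin k) K) :
    (Fin.cons 1 χ : Fin (k + 1) → K) ᵥ* blm a φ B = Fin.cons a (φ + χ ᵥ* B) := by
  funext j
  rw [vecMul, dotProduct, Fin.sum_univ_succ]
  refine Fin.cases ?_ (fun j => ?_) j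
  · simp
  · simp [vecMul, dotProduct]

lemma bl_mem_Ph (a : Kˣ) (χ φ : Fin k → K) (B : GL (Fin k) K) :
    bl a φ B ∈ Ph (Fin.cons 1 χ : Fin (k + 1) → K) ↔ (a : K) • χ = φ + χ ᵥ* B.val := by
  rw [mem_Ph, bl_val, vecMul_cons]
  constructor
  · rintro ⟨c, hc⟩
    have h0 := congrFun hc 0
    have h1 : (a : K) = c := by simpa using h0
    funext j
    have h2 := congrFun hc j.succ
    rw [← h1] at h2
    simpa using h2.symm
  · intro h
    refine ⟨a, ?_⟩
    rw [← h]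
    funext j
    refine Fin.cases ?_ (fun j => ?_) j
    · simp
    · simp

lemma tya_alg (hA : AA H = ⊥) (hrho : rho H = ⊤) (hT : ∀ a : Kˣ, ∃ φ, bl a φ 1 ∈ H)
    (b : Kˣ) (hb : b ≠ 1) : Tyk H e0 := by
  have hb1 : (b : K) - 1 ≠ 0 := by
    intro h
    exact hb (Units.ext (by rw [Units.val_one]; exact sub_eq_zero.1 h))
  obtain ⟨φb, hφb⟩ := hT b
  set χ : Fin k → K := ((b : K) - 1)⁻¹ • φb with hχ
  have hφb' : φb = ((b : K) - 1) • χ := by
    rw [hχ, smul_smul, mul_inv_cancel₀ hb1, one_smul]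
  have hall : ∀ a : Kˣ, bl a (((a : K) - 1) • χ) 1 ∈ H := by
    intro a
    obtain ⟨φa, hφa⟩ := hT a
    have h1 := H.mul_mem hφa hφb
    have h2 := H.mul_mem hφb hφa
    rw [bl_mul, mul_one, Units.val_one, vecMul_one] at h1 h2
    rw [mul_comm b a] at h2
    have h3 := tya_uniq hA h1 h2
    have h4 : φa = ((a : K) - 1) • χ := by
      have h5 : ((b : K) - 1) • φa = ((a : K) - 1) • φb := by
        funext j
        have h6 := congrFun h3 j
        simp only [Pi.add_apply, Pi.smul_apply, smul_eq_mul] at h6 ⊢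
        linear_combination -h6
      rw [hφb'] at h5
      funext j
      refine mul_left_cancel₀ hb1 ?_
      have h6 := congrFun h5 j
      simp only [Pi.smul_apply, smul_eq_mul] at h6 ⊢
      linear_combination h6
    rw [← h4]
    exact hφa
  have key : ∀ (a : Kˣ) (φ : Fin k → K) (B : GL (Fin k) K), bl a φ B ∈ H →
      (a : K) • χ = φ + χ ᵥ* B.val := by
    intro a φ B h
    have h1 := H.mul_mem (H.mul_mem h (hall b)) (H.inv_mem h)
    have h2 : bl a φ B * bl b (((b : K) - 1) • χ) 1 * (bl a φ B)⁻¹ =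
        bl b (((b : K) - 1) • χ) 1 := by
      have h3 : ∃ ψ, bl a φ B * bl b (((b : K) - 1) • χ) 1 * (bl a φ B)⁻¹ = bl b ψ 1 := by
        rw [bl_inv, bl_mul, bl_mul, mul_one, mul_inv_cancel, mul_comm a b, mul_inv_cancel_right]
        exact ⟨_, rfl⟩
      obtain ⟨ψ, hψ⟩ := h3
      rw [hψ] at h1 ⊢
      rw [tya_uniq hA h1 (hall b)]
    rw [mul_inv_eq_iff_eq_mul, bl_mul, bl_mul] at h2
    have h4 := (bl_inj h2).2.1
    rw [Units.val_one, vecMul_one, smul_vecMul] at h4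
    funext j
    have h5 := congrFun h4 j
    simp only [Pi.add_apply, Pi.smul_apply, smul_eq_mul] at h5 ⊢
    refine mul_left_cancel₀ hb1 ?_
    linear_combination h5
  refine ⟨Fin.cons 1 χ, ?_, ?_⟩
  · have h1 : (Fin.cons 1 χ : Fin (k + 1) → K) ⬝ᵥ e0 = 1 := by
      simp [e0]
    rw [h1]
    exact one_ne_zero
  · ext g
    rw [Subgroup.mem_inf, Subgroup.mem_inf]
    constructor
    · rintro ⟨hg, hP⟩
      obtain ⟨a, φ, B, rfl⟩ := mem_Pv_e0.1 hP
      exact ⟨hP, (bl_mem_Ph a χ φ B).2 (key a φ B hg)⟩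
    · rintro ⟨hP, hg⟩
      refine ⟨?_, hP⟩
      obtain ⟨a, φ, B, rfl⟩ := mem_Pv_e0.1 hP
      have h1 := (bl_mem_Ph a χ φ B).1 hg
      obtain ⟨a', φ', h2⟩ : B ∈ rho H := by
        rw [hrho]
        trivial
      have h3 := key a' φ' B h2
      have h4 := H.mul_mem (hall (a * a'⁻¹)) h2
      have h5 : bl (a * a'⁻¹) ((((a * a'⁻¹ : Kˣ) : K) - 1) • χ) 1 * bl a' φ' B = bl a φ B := by
        rw [bl_mul, inv_mul_cancel_right, one_mul]
        refine congrArg (fun x => bl a x B) ?_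
        have ha' : (a' : K) ≠ 0 := a'.ne_zero
        have hc : ((a * a'⁻¹ : Kˣ) : K) * a' = a := by
          rw [← Units.val_mul, inv_mul_cancel_right]
        rw [smul_vecMul]
        funext j
        have h6 := congrFun h1 j
        have h7 := congrFun h3 j
        simp only [Pi.add_apply, Pi.smul_apply, smul_eq_mul] at h6 h7 ⊢
        linear_combination h6 - ((a * a'⁻¹ : Kˣ) : K) * h7 + χ j * hc
      rwa [h5] at h4

end alg

variable {M : Type}

/-- the group of the elements with block one -/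
def H1 {K : Type} [Field K] {k : ℕ} (H : Subgroup (GL (Fin (k + 1)) K)) :
    Subgroup (GL (Fin (k + 1)) K) where
  carrier := {g | g ∈ H ∧ ∃ (a : Kˣ) (φ : Fin k → K), g = bl a φ 1}
  one_mem' := ⟨H.one_mem, 1, 0, bl_one.symm⟩
  mul_mem' := by
    rintro g h ⟨hg, a, φ, rfl⟩ ⟨hh, b, ψ, rfl⟩
    exact ⟨H.mul_mem hg hh, _, _, by rw [bl_mul, mul_one]⟩
  inv_mem' := by
    rintro g ⟨hg, a, φ, rfl⟩
    exact ⟨H.inv_mem hg, _, _, by rw [bl_inv, inv_one]⟩

theorem pf_TYA {M : Type} (U : RU M) (hA : RKA U) (hB : RKB U) (hG : GRB U) (hC : GRC U)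
    (hV : RNV U) (hK : RKS U) (hL : RGL U) (hP : RPE U) (hR : REC U) (hCG : CGL U) (hF : FDG U)
    (hc : COM) (hS : CMS) (hT : SLA) : TYA U := by
  classical
  intro K _ _ _ _ hf k hk hMT H hDH hRH hRA
  obtain ⟨hDr, hDA, hrec⟩ := hR (k + 1) H hDH
  rw [hf, mul_one] at hrec
  have hsl : SLle (rho H) := by
    refine hMT (rho H) hDr ?_
    rw [hf, mul_one, mul_one]
    nlinarith
  have hbot : AA H = ⊥ := by
    have hor : AA H = ⊥ ∨ AA H = ⊤ := by
      refine hT (by omega : 2 ≤ k + 1) (AA H) ?_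
      intro i j t hij φ hφ
      obtain ⟨s, s', hs, hs', hss⟩ := hS (K := K) i j t hij
      rw [← hss]
      exact hc H s s' (hsl s hs) (hsl s' hs') φ hφ
    rcases hor with h | h
    · exact h
    · exfalso
      rw [h] at hRA
      have h1 := (hV (K := K) (k + 1) 0).1
      rw [hf, mul_one] at h1
      have h2 : U.R ((⊤ : AddSubgroup (Fin (k + 1) → K)) : Set (Fin (k + 1) → K)) = k + 1 := h1
      omega
  have hRA0 : U.R (AA H : Set (Fin (k + 1) → K)) = 0 := by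
    rw [hA.fin hDA ⟨0, (AA H).zero_mem⟩, hbot]
    exact Set.finite_singleton 0
  have hrank : ∀ m : ℕ, U.R (univ : Set (GL (Fin m) K)) = m * m := by
    intro m
    have h := hL (K := K) m
    rwa [hf, mul_one] at h
  have hrho : rho H = ⊤ := by
    refine (hCG (K := K) (k + 1)).1.2 (rho H) le_top hDr ?_
    have h1 : U.R ((⊤ : Subgroup (GL (Fin (k + 1)) K)) : Set (GL (Fin (k + 1)) K)) =
        (k + 1) * (k + 1) := hrank (k + 1)
    rw [h1]
    nlinarith
  obtain ⟨hDP, hRP⟩ := hP (K := K) (k + 1)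
  rw [hf, mul_one] at hRP
  have hDHP : U.D ((H ⊓ Pv e0 : Subgroup (GL (Fin (k + 2)) K)) : Set (GL (Fin (k + 2)) K)) :=
    D_inter hDH hDP
  have h4 : (k + 1) * (k + 1) + 1 ≤
      U.R ((H ⊓ Pv e0 : Subgroup (GL (Fin (k + 2)) K)) : Set (GL (Fin (k + 2)) K)) := by
    have h1 := hG ⊤ H (Pv e0) (Ful.full (U := U) (α := GL (Fin (k + 2)) K)) hDH hDP le_top le_top
    have h2 : U.R ((⊤ : Subgroup (GL (Fin (k + 2)) K)) : Set (GL (Fin (k + 2)) K)) =
        (k + 2) * (k + 2) := hrank (k + 2)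
    rw [h2, hRP] at h1
    nlinarith
  -- the group `H1`
  let φ : GL (Fin (k + 2)) K → Matrix (Fin (k + 1)) (Fin (k + 1)) K :=
    fun g => (g.val : Matrix (Fin (k + 2)) (Fin (k + 2)) K).submatrix Fin.succ Fin.succ
  have hφbl : ∀ (a : Kˣ) (ψ : Fin (k + 1) → K) (B : GL (Fin (k + 1)) K), φ (bl a ψ B) = B.val := by
    intro a ψ B
    ext i j
    rfl
  have hφD : DFn U φ := DFn_mat fun i j =>
    DFn_comp (DFn_entry (i.succ : Fin (k + 2)) (j.succ : Fin (k + 2))) DFn_val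
  have hH1 : (H1 H : Set (GL (Fin (k + 2)) K)) =
      ((H ⊓ Pv e0 : Subgroup (GL (Fin (k + 2)) K)) : Set (GL (Fin (k + 2)) K)) ∩
        {g | φ g = 1} := by
    ext g
    constructor
    · rintro ⟨hg, a, ψ, rfl⟩
      exact ⟨⟨hg, mem_Pv_e0.2 ⟨a, ψ, 1, rfl⟩⟩, by
        change φ _ = 1
        rw [hφbl, Units.val_one]⟩
    · rintro ⟨⟨hg, hP⟩, hg1⟩
      obtain ⟨a, ψ, B, rfl⟩ := mem_Pv_e0.1 hP
      have h1 : φ (bl a ψ B) = 1 := hg1
      rw [hφbl] at h1
      have h2 : B = 1 := Units.ext h1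
      subst h2
      exact ⟨hg, a, ψ, rfl⟩
  have hDH1 : U.D (H1 H : Set (GL (Fin (k + 2)) K)) := by
    rw [hH1]
    exact D_inter hDHP (D_eqf hφD (DFn_const _))
  have hRH1 : 1 ≤ U.R (H1 H : Set (GL (Fin (k + 2)) K)) := by
    have h1 := hC (H ⊓ Pv e0) (H1 H) φ hDHP hDH1 ?_ hφD ?_
    · have h2 : U.R (φ '' ((H ⊓ Pv e0 : Subgroup (GL (Fin (k + 2)) K)) :
          Set (GL (Fin (k + 2)) K))) ≤ (k + 1) * (k + 1) := by
        have h3 := hA.mono (DFn_image hφD hDHP)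
          (Ful.full (U := U) (α := Matrix (Fin (k + 1)) (Fin (k + 1)) K))
          (Set.Nonempty.image _ ⟨1, Subgroup.one_mem _⟩) (subset_univ _)
        have h4 := (hV (K := K) (k + 1) (k + 1)).2
        rw [hf, mul_one] at h4
        rw [h4] at h3
        exact h3
      omega
    · intro g hg
      have h2 : g ∈ (H1 H : Set (GL (Fin (k + 2)) K)) := hg
      rw [hH1] at h2
      exact h2.1
    · rintro g ⟨hg, hgP⟩ h ⟨hh, hhP⟩
      obtain ⟨a, ψ, B, rfl⟩ := mem_Pv_e0.1 hgP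
      obtain ⟨a', ψ', B', rfl⟩ := mem_Pv_e0.1 hhP
      rw [hφbl, hφbl]
      constructor
      · intro h1
        have h2 : B = B' := Units.ext h1
        subst h2
        refine ⟨H.mul_mem (H.inv_mem hg) hh, ?_⟩
        rw [bl_inv, bl_mul, inv_mul_cancel]
        exact ⟨_, _, rfl⟩
      · rintro ⟨-, c, ψ'', h1⟩
        rw [bl_inv, bl_mul] at h1
        have h2 := (bl_inj h1).2.2
        rw [inv_mul_eq_one] at h2
        rw [h2]
  -- the image of `H1` in `K`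
  let τ : GL (Fin (k + 2)) K → K := fun g => (g.val : Matrix (Fin (k + 2)) (Fin (k + 2)) K) 0 0
  have hτbl : ∀ (a : Kˣ) (ψ : Fin (k + 1) → K) (B : GL (Fin (k + 1)) K),
      τ (bl a ψ B) = (a : K) := fun a ψ B => rfl
  have hτD : DFn U τ := DFn_comp (DFn_entry (0 : Fin (k + 2)) (0 : Fin (k + 2))) DFn_val
  have hinj : InjOn τ (H1 H : Set (GL (Fin (k + 2)) K)) := by
    rintro g ⟨hg, a, ψ, rfl⟩ h ⟨hh, b, ψ', rfl⟩ hab
    rw [hτbl, hτbl] at hab
    have h1 : a = b := Units.ext hab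
    subst h1
    rw [tya_uniq hbot hg hh]
  set T : Set K := τ '' (H1 H : Set (GL (Fin (k + 2)) K)) with hTd
  have hT0 : T.Nonempty := Set.Nonempty.image _ ⟨1, (H1 H).one_mem⟩
  have hDT : U.D T := DFn_image hτD hDH1
  have hRT : 1 ≤ U.R T := by
    rw [hTd, hB.inj hDH1 hτD ⟨1, (H1 H).one_mem⟩ hinj]
    exact hRH1
  have hTall : ∀ b : Kˣ, ∃ φ, bl b φ 1 ∈ H := by
    intro b
    have hmulD : DFn U (fun x : K => (b : K) * x) := DFn_mul (DFn_const _) DFn_id
    have hDbT : U.D ((fun x : K => (b : K) * x) '' T) := DFn_image hmulD hDT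
    have hRbT : U.R ((fun x : K => (b : K) * x) '' T) = U.R T :=
      hB.inj hDT hmulD hT0 (fun x _ y _ hxy => mul_left_cancel₀ b.ne_zero hxy)
    obtain ⟨x, ⟨g, hg, hgx⟩, ⟨y, ⟨g', hg', hgy⟩, hyx⟩⟩ := hF T ((fun x : K => (b : K) * x) '' T)
      hDT hDbT hT0 (hT0.image _) (by rw [hf]; exact hRT) (by rw [hf, hRbT]; exact hRT)
    obtain ⟨hgH, a, ψ, rfl⟩ := hg
    obtain ⟨hg'H, a', ψ', rfl⟩ := hg'
    have h1 : (b : K) * (a' : K) = (a : K) := by
      have h2 : (b : K) * y = x := hyx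
      rw [← hgx, ← hgy] at h2
      exact h2
    have h2 : b = a * a'⁻¹ := by
      rw [eq_mul_inv_iff_mul_eq]
      exact Units.ext h1
    have h3 := H.mul_mem hgH (H.inv_mem hg'H)
    rw [bl_inv, bl_mul, inv_one, mul_one, ← h2] at h3
    exact ⟨_, h3⟩
  obtain ⟨b, hb⟩ : ∃ b : Kˣ, b ≠ 1 := by
    obtain ⟨x, hx⟩ := Infinite.exists_notMem_finset ({0, 1} : Finset K)
    rw [Finset.mem_insert, Finset.mem_singleton, not_or] at hx
    refine ⟨Units.mk0 x hx.1, fun h => hx.2 ?_⟩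
    have := congrArg Units.val h
    exact this
  exact tya_alg hbot hrho hTall b hb

end Pool.Agent.H12.BCP
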